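import Mathlib
import Pool.Agent.TH505.OCDC.Decomp

/-!
Oriented cycle double covers: balanced families of arcs, two even subgraphs.
-/

set_option autoImplicit false

namespace Pool.Agent.K4H13.CY

open Finset Pool.Agent.TH505.OCDC

variable {V : Type}

/-- the digraph of `S` is a union of directed cycles of length at least three -/
def OC (S : SimpleGraph V) : Prop :=
  ∃ C : List (Σ v : V, S.Walk v v), (∀ c ∈ C, c.2.IsCycle) ∧
    ∀ u v, S.Adj u v → tot C u v = 1

theorem tot_flatten {S : SimpleGraph V} {ι : Type} (l : List ι)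
    (C : ι → List (Σ v : V, S.Walk v v)) (u v : V) :
    tot ((l.map C).flatten) u v = (l.map (fun i => tot (C i) u v)).sum := by
  induction l with
  | nil => rfl
  | cons a l ih =>
    rw [List.map_cons, List.flatten_cons, tot_append, ih, List.map_cons, List.sum_cons]

/-- families of balanced sets of arcs without opposite arcs -/
theorem oc_of_families [Fintype V] {S : SimpleGraph V} {ι : Type} [Fintype ι]
    (A : ι → V → V → Prop) (h1 : ∀ i u v, A i u v → S.Adj u v) (h2 : ∀ i u v, A i u v → ¬ A i v u)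
    (h3 : ∀ i v, ∑ w, ind (A i v w) = ∑ w, ind (A i w v))
    (h4 : ∀ u v, S.Adj u v → ∃! i, A i u v) : OC S := by
  classical
  have key : ∀ i, ∃ C : List (Σ v : V, S.Walk v v), (∀ c ∈ C, c.2.IsCycle) ∧
      ∀ u v, tot C u v = ind (A i u v) := fun i =>
    directed_decomp _ (A i) rfl (h1 i) (h2 i) (h3 i)
  choose C hC1 hC2 using key
  refine ⟨((univ : Finset ι).toList.map C).flatten, ?_, ?_⟩
  · intro c hc
    rw [List.mem_flatten] at hc
    obtain ⟨l, hl, hcl⟩ := hc
    rw [List.mem_map] at hl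
    obtain ⟨i, -, rfl⟩ := hl
    exact hC1 i c hcl
  · intro u v huv
    rw [tot_flatten]
    obtain ⟨i, hi, hu⟩ := h4 u v huv
    have h5 : ((univ : Finset ι).toList.map (fun i => tot (C i) u v)).sum =
        ∑ i, tot (C i) u v := by
      rw [Finset.sum_map_toList]
    rw [h5, sum_eq_single i]
    · rw [hC2, ind_pos hi]
    · intro j _ hj
      rw [hC2, ind_neg (fun h => hj (hu j h))]
    · intro h
      exact absurd (mem_univ _) h

/-- the arcs of `S` are partitioned into balanced sets without opposite arcs -/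
def Fam [Fintype V] (S : SimpleGraph V) : Prop :=
  ∃ (ι : Type) (_ : Fintype ι) (A : ι → V → V → Prop), (∀ i u v, A i u v → S.Adj u v) ∧
    (∀ i u v, A i u v → ¬ A i v u) ∧ (∀ i v, ∑ w, ind (A i v w) = ∑ w, ind (A i w v)) ∧
    ∀ u v, S.Adj u v → ∃! i, A i u v

theorem Fam.oc [Fintype V] {S : SimpleGraph V} (h : Fam S) : OC S := by
  obtain ⟨ι, _, A, h1, h2, h3, h4⟩ := h
  exact oc_of_families A h1 h2 h3 h4

theorem Fam.union [Fintype V] {S S₁ S₂ : SimpleGraph V} (f₁ : Fam S₁) (f₂ : Fam S₂)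
    (h : ∀ u v, S.Adj u v ↔ S₁.Adj u v ∨ S₂.Adj u v) (hd : ∀ u v, S₁.Adj u v → ¬ S₂.Adj u v) :
    Fam S := by
  obtain ⟨ι, _, A, a1, a2, a3, a4⟩ := f₁
  obtain ⟨κ, _, B, b1, b2, b3, b4⟩ := f₂
  refine ⟨ι ⊕ κ, inferInstance, fun i => Sum.elim A B i, ?_, ?_, ?_, ?_⟩
  · rintro (i | i) u v hi
    · exact (h u v).2 (Or.inl (a1 i u v hi))
    · exact (h u v).2 (Or.inr (b1 i u v hi))
  · rintro (i | i) u v hi
    · exact a2 i u v hi
    · exact b2 i u v hi
  · rintro (i | i) v
    · exact a3 i v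
    · exact b3 i v
  · intro u v huv
    rcases (h u v).1 huv with hh | hh
    · obtain ⟨i, hi, hu⟩ := a4 u v hh
      refine ⟨Sum.inl i, hi, ?_⟩
      rintro (j | j) hj
      · rw [hu j hj]
      · exact absurd (b1 j u v hj) (hd u v hh)
    · obtain ⟨i, hi, hu⟩ := b4 u v hh
      refine ⟨Sum.inr i, hi, ?_⟩
      rintro (j | j) hj
      · exact absurd hh (hd u v (a1 j u v hj))
      · rw [hu j hj]

/-- the arcs of value two of an even function -/
theorem bal_two [Fintype V] (g : V → V → ℤ) (hanti : ∀ u v, g v u = - g u v)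
    (hval : ∀ u v, g u v = 0 ∨ g u v = 2 ∨ g u v = -2) (hcons : ∀ u, ∑ w, g u w = 0) (v : V) :
    ∑ w, ind (g v w = 2) = ∑ w, ind (g w v = 2) := by
  have h2 : ∀ w, g v w = 2 * (ind (g v w = 2) : ℤ) - 2 * (ind (g w v = 2) : ℤ) := by
    intro w
    have h3 := hanti v w
    rcases hval v w with h | h | h
    · rw [ind_neg (by rw [h]; norm_num), ind_neg (by rw [h3, h]; norm_num), h]; norm_num
    · rw [ind_pos h, ind_neg (by rw [h3, h]; norm_num), h]; norm_num
    · rw [ind_neg (by rw [h]; norm_num), ind_pos (by rw [h3, h]; norm_num), h]; norm_num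
  have h4 := hcons v
  rw [sum_congr rfl (fun w _ => h2 w), sum_sub_distrib, ← mul_sum, ← mul_sum] at h4
  have h5 : ((∑ w, ind (g v w = 2) : ℕ) : ℤ) = ((∑ w, ind (g w v = 2) : ℕ) : ℤ) := by
    push_cast
    linarith
  exact_mod_cast h5

theorem ind_and_or (p q : Prop) :
    ind p + ind q = ind ((p ∧ ¬ q) ∨ (¬ p ∧ q)) + 2 * ind (p ∧ q) := by
  by_cases hp : p <;> by_cases hq : q <;> simp [ind, hp, hq]

/-- a graph which is the union of two even subgraphs -/
theorem fam_of_cover [Fintype V] {S : SimpleGraph V} (R₁ R₂ : V → V → Prop)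
    (s₁ : ∀ u v, R₁ u v → R₁ v u) (s₂ : ∀ u v, R₂ u v → R₂ v u)
    (a₁ : ∀ u v, R₁ u v → S.Adj u v) (a₂ : ∀ u v, R₂ u v → S.Adj u v)
    (e₁ : ∀ v, Even (∑ w, ind (R₁ v w))) (e₂ : ∀ v, Even (∑ w, ind (R₂ v w)))
    (hc : ∀ u v, S.Adj u v → R₁ u v ∨ R₂ u v) : Fam S := by
  classical
  have e₃ : ∀ v, Even (∑ w, ind ((R₁ v w ∧ ¬ R₂ v w) ∨ (¬ R₁ v w ∧ R₂ v w))) := by
    intro v
    have h1 : ∑ w, ind (R₁ v w) + ∑ w, ind (R₂ v w) =
        ∑ w, ind ((R₁ v w ∧ ¬ R₂ v w) ∨ (¬ R₁ v w ∧ R₂ v w)) +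
          2 * ∑ w, ind (R₁ v w ∧ R₂ v w) := by
      rw [mul_sum, ← sum_add_distrib, ← sum_add_distrib]
      exact sum_congr rfl (fun w _ => ind_and_or _ _)
    have h2 := (e₁ v).add (e₂ v)
    rw [h1, Nat.even_add] at h2
    exact h2.2 (even_two_mul _)
  obtain ⟨f, f1, f2, f3, f4⟩ := orient S _ R₁ rfl a₁ s₁ e₁
  obtain ⟨g, g1, g2, g3, g4⟩ := orient S _ R₂ rfl a₂ s₂ e₂
  obtain ⟨h, k1, k2, k3, k4⟩ := orient S _
    (fun u v => (R₁ u v ∧ ¬ R₂ u v) ∨ (¬ R₁ u v ∧ R₂ u v)) rfl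
    (fun u v h => h.elim (fun h => a₁ _ _ h.1) (fun h => a₂ _ _ h.2))
    (fun u v h => h.elim (fun h => Or.inl ⟨s₁ _ _ h.1, fun h' => h.2 (s₂ _ _ h')⟩)
      (fun h => Or.inr ⟨fun h' => h.1 (s₁ _ _ h'), s₂ _ _ h.2⟩)) e₃
  -- the values on the edges
  have val : ∀ u v, (S.Adj u v ∧ ((h u v = 0 ∧ (f u v = 1 ∨ f u v = -1) ∧ (g u v = 1 ∨ g u v = -1)) ∨
      (g u v = 0 ∧ (f u v = 1 ∨ f u v = -1) ∧ (h u v = 1 ∨ h u v = -1)) ∨
      (f u v = 0 ∧ (g u v = 1 ∨ g u v = -1) ∧ (h u v = 1 ∨ h u v = -1)))) ∨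
      (¬ S.Adj u v ∧ f u v = 0 ∧ g u v = 0 ∧ h u v = 0) := by
    intro u v
    by_cases x : R₁ u v
    · left
      refine ⟨a₁ u v x, ?_⟩
      by_cases y : R₂ u v
      · left
        exact ⟨k3 u v (by tauto), f2 u v x, g2 u v y⟩
      · right; left
        exact ⟨g3 u v y, f2 u v x, k2 u v (Or.inl ⟨x, y⟩)⟩
    · by_cases y : R₂ u v
      · left
        refine ⟨a₂ u v y, ?_⟩
        right; right
        exact ⟨f3 u v x, g2 u v y, k2 u v (Or.inr ⟨x, y⟩)⟩
      · right
        refine ⟨fun hh => (hc u v hh).elim x y, f3 u v x, g3 u v y, k3 u v (by tauto)⟩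
  let G : Fin 4 → V → V → ℤ := fun i u v => match i with
    | 0 => f u v + g u v + h u v
    | 1 => f u v - g u v - h u v
    | 2 => - f u v + g u v - h u v
    | 3 => - f u v - g u v + h u v
  have Ganti : ∀ i u v, G i v u = - G i u v := by
    intro i u v
    have x1 := f1 u v
    have x2 := g1 u v
    have x3 := k1 u v
    fin_cases i <;> simp only [G] <;> linarith
  have Gcons : ∀ i u, ∑ w, G i u w = 0 := by
    intro i u
    have x1 := f4 u
    have x2 := g4 u
    have x3 := k4 u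
    fin_cases i <;>
      simp only [G, sum_add_distrib, sum_sub_distrib, sum_neg_distrib] <;> linarith
  have Gval : ∀ i u v, G i u v = 0 ∨ G i u v = 2 ∨ G i u v = -2 := by
    intro i u v
    rcases val u v with ⟨-, hh⟩ | ⟨-, x, y, z⟩
    · fin_cases i <;> simp only [G] <;> omega
    · fin_cases i <;> simp only [G] <;> omega
  refine ⟨Fin 4, inferInstance, fun i u v => G i u v = 2, ?_, ?_, ?_, ?_⟩
  · intro i u v hi
    rcases val u v with ⟨hh, -⟩ | ⟨-, x, y, z⟩
    · exact hh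
    · exfalso
      fin_cases i <;> simp only [G] at hi <;> omega
  · intro i u v hi hi'
    rw [Ganti i u v, hi] at hi'
    norm_num at hi'
  · intro i v
    exact bal_two (G i) (Ganti i) (Gval i) (Gcons i) v
  · intro u v huv
    rcases val u v with ⟨-, hh⟩ | ⟨hh, -⟩
    · have hex : ∃ i, G i u v = 2 := by
        by_contra hcon
        push Not at hcon
        have y0 := hcon 0
        have y1 := hcon 1
        have y2 := hcon 2
        have y3 := hcon 3
        simp only [G] at y0 y1 y2 y3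
        omega
      obtain ⟨i, hi⟩ := hex
      refine ⟨i, hi, ?_⟩
      intro j hj
      have hj : G j u v = 2 := hj
      by_contra hne
      fin_cases i <;> fin_cases j <;> simp only [G] at hi hj <;> first
        | exact hne rfl
        | omega
    · exact absurd huv hh

/-- all degrees even -/
theorem fam_even [Fintype V] {S : SimpleGraph V} (h : ∀ v, Even (∑ w, ind (S.Adj v w))) : Fam S :=
  fam_of_cover S.Adj S.Adj (fun _ _ h => h.symm) (fun _ _ h => h.symm) (fun _ _ h => h)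
    (fun _ _ h => h) h h (fun _ _ h => Or.inl h)

end Pool.Agent.K4H13.CY
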