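import Mathlib
import Pool.Agent.K4H13.CY.Basic

/-!
Oriented cycle double covers of Cayley graphs.
-/

set_option autoImplicit false

namespace Pool.Agent.K4H13.CY

open Finset Pool.Agent.TH505.OCDC

variable {G : Type} [Group G]

/-- the Cayley graph -/
def cay (S : Set G) (h1 : (1 : G) ∉ S) (hinv : ∀ s ∈ S, s⁻¹ ∈ S) : SimpleGraph G where
  Adj x y := x⁻¹ * y ∈ S
  symm := ⟨fun x y h => by
    have := hinv _ h
    rwa [mul_inv_rev, inv_inv] at this⟩
  loopless := ⟨fun x h => h1 (by rwa [inv_mul_cancel] at h)⟩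

theorem sum_ind_card [Fintype G] (S : Set G) (v : G) : ∑ w, ind (v⁻¹ * w ∈ S) = S.ncard := by
  classical
  unfold ind
  rw [← card_filter, ← Set.ncard_coe_finset]
  have : ((univ.filter (fun w => v⁻¹ * w ∈ S) : Finset G) : Set G) = (fun s => v * s) '' S := by
    ext w
    simp only [coe_filter, mem_univ, true_and, Set.mem_image]
    constructor
    · intro h
      exact ⟨v⁻¹ * w, h, by group⟩
    · rintro ⟨s, hs, rfl⟩
      simpa using hs
  rw [this, Set.ncard_image_of_injective _ (mul_right_injective v)]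

omit [Group G] in
/-- sums of indicators at one element -/
theorem sum_ind_eq [Fintype G] (p : Prop) (x : G) : ∑ w, ind (p ∧ w = x) = ind p := by
  classical
  by_cases hp : p
  · rw [ind_pos hp, sum_eq_single x]
    · exact ind_pos ⟨hp, rfl⟩
    · intro b _ hb
      exact ind_neg (fun h => hb h.2)
    · intro h
      exact absurd (mem_univ _) h
  · rw [ind_neg hp]
    exact sum_eq_zero (fun w _ => ind_neg (fun h => hp h.1))

theorem ind_or {p q : Prop} (h : ¬ (p ∧ q)) : ind (p ∨ q) = ind p + ind q := by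
  by_cases hp : p <;> by_cases hq : q <;> simp [ind, hp, hq] at h ⊢

theorem ind_congr {p q : Prop} (h : p ↔ q) : ind p = ind q := by rw [propext h]

/-- two different elements of order two -/
theorem fam_two_inv [Fintype G] (S : Set G) (h1 : (1 : G) ∉ S) (hinv : ∀ s ∈ S, s⁻¹ ∈ S)
    (hodd : Odd S.ncard) (a b : G) (ha : a ∈ S) (hb : b ∈ S) (hab : a ≠ b) (ha2 : a⁻¹ = a)
    (hb2 : b⁻¹ = b) : Fam (cay S h1 hinv) := by
  classical
  have key : ∀ c ∈ S, c⁻¹ = c → (∀ u v : G, u⁻¹ * v ∈ S \ {c} → v⁻¹ * u ∈ S \ {c}) ∧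
      ∀ v : G, Even (∑ w, ind (v⁻¹ * w ∈ S \ {c})) := by
    intro c hc hc2
    refine ⟨?_, ?_⟩
    · rintro u v ⟨h, h'⟩
      refine ⟨?_, ?_⟩
      · have := hinv _ h
        rwa [mul_inv_rev, inv_inv] at this
      · intro h3
        apply h'
        rw [Set.mem_singleton_iff] at h3 ⊢
        have := congrArg (fun x => x⁻¹) h3
        simp only [mul_inv_rev, inv_inv, hc2] at this
        exact this
    · intro v
      rw [sum_ind_card, Set.ncard_sdiff_singleton_of_mem hc]
      exact Nat.Odd.sub_odd hodd odd_one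
  refine fam_of_cover (fun u v => u⁻¹ * v ∈ S \ {a}) (fun u v => u⁻¹ * v ∈ S \ {b})
    (key a ha ha2).1 (key b hb hb2).1 (fun u v h => h.1) (fun u v h => h.1)
    (key a ha ha2).2 (key b hb hb2).2 ?_
  intro u v huv
  by_cases h : u⁻¹ * v = a
  · right
    exact ⟨huv, fun h' => hab (h.symm.trans h')⟩
  · left
    exact ⟨huv, h⟩

/-- a set of representatives for a subgroup `K` in a subgroup `H` -/
theorem exists_transversal (H K : Subgroup G) : ∃ T : Set G, ∀ x, ∃ y ∈ H,
    ∀ h ∈ H, (x * h ∈ T ↔ y * h ∈ K) := by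
  refine ⟨{x | ((QuotientGroup.mk x : G ⧸ H).out)⁻¹ * x ∈ K}, ?_⟩
  intro x
  refine ⟨((QuotientGroup.mk x : G ⧸ H).out)⁻¹ * x, ?_, ?_⟩
  · rw [← QuotientGroup.eq]
    exact Quotient.out_eq' _
  · intro h hh
    have : (QuotientGroup.mk (x * h) : G ⧸ H) = QuotientGroup.mk x := by
      rw [eq_comm, QuotientGroup.eq]
      simpa using hh
    show ((QuotientGroup.mk (x * h) : G ⧸ H).out)⁻¹ * (x * h) ∈ K ↔ _
    rw [this, mul_assoc]

/-- a set `T` with `T b = G \ T` -/
theorem exists_alt (b : G) (hb : Even (orderOf b)) : ∃ T : Set G, ∀ x, x * b ∈ T ↔ x ∉ T := by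
  obtain ⟨T, hT⟩ := exists_transversal (Subgroup.zpowers b) (Subgroup.zpowers (b * b))
  refine ⟨T, fun x => ?_⟩
  obtain ⟨y, hy, h⟩ := hT x
  have h1 := h b (Subgroup.mem_zpowers b)
  have h2 := h 1 (Subgroup.one_mem _)
  rw [mul_one, mul_one] at h2
  rw [h1, h2]
  obtain ⟨k, rfl⟩ := hy
  show b ^ k * b ∈ _ ↔ b ^ k ∉ _
  constructor
  · intro h3 h4
    have h5 : b ∈ Subgroup.zpowers (b * b) := by
      have := Subgroup.mul_mem _ (Subgroup.inv_mem _ h4) h3
      simpa using this
    obtain ⟨j, hj⟩ := h5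
    have hj : (b * b) ^ j = b := hj
    rw [← zpow_two, ← zpow_mul] at hj
    have h6 : b ^ (2 * j - 1) = 1 := by
      rw [zpow_sub, hj, zpow_one, mul_inv_cancel]
    have h7 := orderOf_dvd_iff_zpow_eq_one.2 h6
    obtain ⟨m, hm⟩ := hb
    rw [hm] at h7
    obtain ⟨q, hq⟩ := h7
    push_cast at hq
    have h8 : 2 * (m * q) = 2 * j - 1 := by rw [hq]; ring
    omega
  · intro h3
    rcases Int.even_or_odd' k with ⟨j, rfl | rfl⟩
    · exfalso
      apply h3
      refine ⟨j, ?_⟩
      show (b * b) ^ j = _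
      rw [← zpow_two, ← zpow_mul]
    · refine ⟨j + 1, ?_⟩
      show (b * b) ^ (j + 1) = _
      rw [← zpow_two, ← zpow_mul, ← zpow_add_one]
      congr 1
      ring

/-- a set `T` with `T b = T` and `T a = G \ T` -/
theorem exists_layers (a b : G) (ha2 : a⁻¹ = a) (hab : a * b = b * a)
    (ha : a ∉ Subgroup.zpowers b) : ∃ T : Set G, ∀ x, (x * b ∈ T ↔ x ∈ T) ∧ (x * a ∈ T ↔ x ∉ T) := by
  have haa : a * a = 1 := by
    have := mul_inv_cancel a
    rwa [ha2] at this
  have hcomm : ∀ z ∈ Subgroup.zpowers b, a * z = z * a := by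
    rintro z ⟨k, rfl⟩
    exact ((show Commute a b from hab).zpow_right k).eq
  let H : Subgroup G :=
    { carrier := {y | y ∈ Subgroup.zpowers b ∨ y * a ∈ Subgroup.zpowers b}
      one_mem' := Or.inl (Subgroup.one_mem _)
      mul_mem' := by
        have hc : ∀ y, (y ∈ Subgroup.zpowers b ∨ y * a ∈ Subgroup.zpowers b) → a * y = y * a := by
          rintro y (h | h)
          · exact hcomm y h
          · have h2 := hcomm _ h
            have : a * y = y * a := by
              have h3 : a * (y * a) * a = (y * a) * a * a := by rw [h2]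
              rwa [mul_assoc, mul_assoc y a a, haa, mul_one] at h3
            exact this
        intro y z hy hz
        have cy := hc y hy
        have cz := hc z hz
        rcases hy with hy | hy <;> rcases hz with hz | hz
        · exact Or.inl (Subgroup.mul_mem _ hy hz)
        · right
          rw [mul_assoc]
          exact Subgroup.mul_mem _ hy hz
        · right
          rw [mul_assoc, ← cz, ← mul_assoc]
          exact Subgroup.mul_mem _ hy hz
        · left
          have : y * z = (y * a) * (z * a) := by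
            rw [mul_assoc y a, ← mul_assoc a z, cz, mul_assoc z a a, haa, mul_one]
          rw [this]
          exact Subgroup.mul_mem _ hy hz
      inv_mem' := by
        rintro y (h | h)
        · exact Or.inl (Subgroup.inv_mem _ h)
        · right
          have h2 := hcomm _ h
          have h3 : a * y = y * a := by
            have h3 : a * (y * a) * a = (y * a) * a * a := by rw [h2]
            rwa [mul_assoc, mul_assoc y a a, haa, mul_one] at h3
          have h4 : y⁻¹ * a = (y * a)⁻¹ := by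
            rw [← h3, mul_inv_rev, ha2]
          rw [h4]
          exact Subgroup.inv_mem _ h }
  have hbH : b ∈ H := Or.inl (Subgroup.mem_zpowers b)
  have haH : a ∈ H := Or.inr (by rw [haa]; exact Subgroup.one_mem _)
  obtain ⟨T, hT⟩ := exists_transversal H (Subgroup.zpowers b)
  refine ⟨T, fun x => ?_⟩
  obtain ⟨y, hy, h⟩ := hT x
  have h1 := h b hbH
  have h2 := h a haH
  have h3 := h 1 (Subgroup.one_mem _)
  rw [mul_one, mul_one] at h3
  rw [h1, h2, h3]
  refine ⟨?_, ?_⟩
  · constructor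
    · intro h4
      have := Subgroup.mul_mem _ h4 (Subgroup.inv_mem _ (Subgroup.mem_zpowers b))
      simpa using this
    · intro h4
      exact Subgroup.mul_mem _ h4 (Subgroup.mem_zpowers b)
  · constructor
    · intro h4 h5
      apply ha
      have := Subgroup.mul_mem _ (Subgroup.inv_mem _ h5) h4
      simpa using this
    · intro h4
      exact hy.resolve_left h4

/-- the cubic block, rotation -/
theorem fam_rot [Fintype G] (a b : G) (ha2 : a⁻¹ = a) (hb2 : b⁻¹ ≠ b) (hab : a ≠ b)
    (hr : a ∉ Subgroup.zpowers (b * a)) (h1 : (1 : G) ∉ ({a, b, b⁻¹} : Set G))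
    (hinv : ∀ s ∈ ({a, b, b⁻¹} : Set G), s⁻¹ ∈ ({a, b, b⁻¹} : Set G)) :
    Fam (cay {a, b, b⁻¹} h1 hinv) := by
  classical
  have haa : a * a = 1 := by
    have := mul_inv_cancel a
    rwa [ha2] at this
  have a1 : a ≠ 1 := fun h => h1 (by simp [h])
  have b1 : b ≠ 1 := fun h => h1 (by simp [h])
  have hab' : a ≠ b⁻¹ := fun h => hab (by rw [← ha2, h, inv_inv])
  let C : G → G ⧸ Subgroup.zpowers (b * a) := fun g => QuotientGroup.mk g
  have hC : ∀ g, C (g * b⁻¹) = C (g * a) := by
    intro g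
    rw [QuotientGroup.eq]
    refine ⟨1, ?_⟩
    show (b * a) ^ (1 : ℤ) = _
    rw [zpow_one]
    group
  have hCb : ∀ g, C g = C (g * b * a) := by
    intro g
    have := hC (g * b)
    rwa [mul_inv_cancel_right] at this
  have hne : ∀ g, C g ≠ C (g * a) := by
    intro g h
    rw [QuotientGroup.eq] at h
    apply hr
    simpa using h
  refine ⟨Option (G ⧸ Subgroup.zpowers (b * a)), inferInstance, fun o u v => o.elim (v = u * b⁻¹)
    (fun i => (C u = i ∧ v = u * b) ∨ (C v = i ∧ v = u * a)), ?_, ?_, ?_, ?_⟩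
  · rintro (_ | i) u v hi
    · have hi : v = u * b⁻¹ := hi
      show u⁻¹ * v ∈ _
      rw [hi]
      simp
    · rcases hi with ⟨-, hi⟩ | ⟨-, hi⟩
      · show u⁻¹ * v ∈ _
        rw [hi]
        simp
      · show u⁻¹ * v ∈ _
        rw [hi]
        simp
  · rintro (_ | i) u v hi hj
    · have hi : v = u * b⁻¹ := hi
      have hj : u = v * b⁻¹ := hj
      rw [hi, mul_assoc] at hj
      have h3 : b⁻¹ * b⁻¹ = 1 := by simpa using hj
      exact hb2 (by rw [inv_eq_iff_mul_eq_one, ← inv_inj, mul_inv_rev, inv_one]; exact h3)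
    · rcases hi with ⟨hi, hi'⟩ | ⟨hi, hi'⟩ <;> rcases hj with ⟨hj, hj'⟩ | ⟨hj, hj'⟩
      · rw [hi', mul_assoc] at hj'
        have h3 : b * b = 1 := by simpa using hj'
        exact hb2 (inv_eq_of_mul_eq_one_left h3)
      · rw [hi', mul_assoc] at hj'
        have h3 : b * a = 1 := by simpa using hj'
        exact hab' (eq_inv_of_mul_eq_one_right h3)
      · rw [hi', mul_assoc] at hj'
        have h3 : a * b = 1 := by simpa using hj'
        exact hab' (eq_inv_of_mul_eq_one_left h3)
      · have h3 := hne u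
        rw [← hi'] at h3
        exact h3 (hj.trans hi.symm)
  · rintro (_ | i) v
    · show ∑ w, ind (w = v * b⁻¹) = ∑ w, ind (v = w * b⁻¹)
      have e1 : ∀ w, ind (w = v * b⁻¹) = ind (True ∧ w = v * b⁻¹) := fun w =>
        ind_congr (by simp)
      have e2 : ∀ w, ind (v = w * b⁻¹) = ind (True ∧ w = v * b) := fun w =>
        ind_congr (by
          rw [true_and]
          constructor
          · rintro rfl; group
          · rintro rfl; group)
      rw [sum_congr rfl (fun w _ => e1 w), sum_congr rfl (fun w _ => e2 w), sum_ind_eq, sum_ind_eq]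
    · show ∑ w, ind ((C v = i ∧ w = v * b) ∨ (C w = i ∧ w = v * a)) =
        ∑ w, ind ((C w = i ∧ v = w * b) ∨ (C v = i ∧ v = w * a))
      have e1 : ∀ w, ind ((C v = i ∧ w = v * b) ∨ (C w = i ∧ w = v * a)) =
          ind (C v = i ∧ w = v * b) + ind (C (v * a) = i ∧ w = v * a) := by
        intro w
        rw [ind_or]
        · congr 1
          apply ind_congr
          constructor
          · rintro ⟨x, rfl⟩; exact ⟨x, rfl⟩
          · rintro ⟨x, rfl⟩; exact ⟨x, rfl⟩
        · rintro ⟨⟨-, x⟩, ⟨-, y⟩⟩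
          exact hab (mul_left_cancel (y.symm.trans x))
      have e2 : ∀ w, ind ((C w = i ∧ v = w * b) ∨ (C v = i ∧ v = w * a)) =
          ind (C (v * b⁻¹) = i ∧ w = v * b⁻¹) + ind (C v = i ∧ w = v * a) := by
        intro w
        rw [ind_or]
        · congr 1
          · apply ind_congr
            constructor
            · rintro ⟨x, rfl⟩; exact ⟨by simpa using x, by group⟩
            · rintro ⟨x, rfl⟩; exact ⟨x, by group⟩
          · apply ind_congr
            constructor
            · rintro ⟨x, y⟩; exact ⟨x, by rw [y, mul_assoc, haa, mul_one]⟩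
            · rintro ⟨x, y⟩; exact ⟨x, by rw [y, mul_assoc, haa, mul_one]⟩
        · rintro ⟨⟨-, x⟩, ⟨-, y⟩⟩
          exact hab (mul_left_cancel (y.symm.trans x))
      rw [sum_congr rfl (fun w _ => e1 w), sum_congr rfl (fun w _ => e2 w), sum_add_distrib,
        sum_add_distrib, sum_ind_eq, sum_ind_eq, sum_ind_eq, sum_ind_eq, hC v, add_comm]
  · intro u v huv
    have huv : u⁻¹ * v = a ∨ u⁻¹ * v = b ∨ u⁻¹ * v = b⁻¹ := huv
    rcases huv with h | h | h
    · have hv : v = u * a := by rw [← h]; group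
      refine ⟨some (C v), Or.inr ⟨rfl, hv⟩, ?_⟩
      rintro (_ | j) hj
      · have hj : v = u * b⁻¹ := hj
        exact absurd (mul_left_cancel (hv.symm.trans hj)) hab'
      · rcases hj with ⟨-, hj⟩ | ⟨hj, -⟩
        · exact absurd (mul_left_cancel (hv.symm.trans hj)) hab
        · rw [hj]
    · have hv : v = u * b := by rw [← h]; group
      refine ⟨some (C u), Or.inl ⟨rfl, hv⟩, ?_⟩
      rintro (_ | j) hj
      · have hj : v = u * b⁻¹ := hj
        exact absurd (mul_left_cancel (hj.symm.trans hv)) hb2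
      · rcases hj with ⟨hj, -⟩ | ⟨-, hj⟩
        · rw [hj]
        · exact absurd (mul_left_cancel (hj.symm.trans hv)) hab
    · have hv : v = u * b⁻¹ := by rw [← h]; group
      refine ⟨none, hv, ?_⟩
      rintro (_ | j) hj
      · rfl
      · rcases hj with ⟨-, hj⟩ | ⟨-, hj⟩
        · exact absurd (mul_left_cancel (hv.symm.trans hj)) hb2
        · exact absurd (mul_left_cancel (hj.symm.trans hv)) hab'

/-- a directed cycle of length four -/
def four {V : Type} (c : Fin 4 → V) (u v : V) : Prop := ∃ k, u = c k ∧ v = c (k + 1)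

theorem four_no {V : Type} {c : Fin 4 → V} (hc : Function.Injective c) {u v : V}
    (h : four c u v) : ¬ four c v u := by
  obtain ⟨k, rfl, rfl⟩ := h
  rintro ⟨l, h1, h2⟩
  have key : ∀ k l : Fin 4, k + 1 = l → k = l + 1 → False := by decide
  exact key k l (hc h1) (hc h2)

theorem four_bal {V : Type} [Fintype V] {c : Fin 4 → V} (hc : Function.Injective c) (v : V) :
    ∑ w, ind (four c v w) = ∑ w, ind (four c w v) := by
  classical
  by_cases h : ∃ k, v = c k
  · obtain ⟨k, rfl⟩ := h
    have e1 : ∑ w, ind (four c (c k) w) = 1 := by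
      rw [sum_eq_single (c (k + 1))]
      · exact ind_pos ⟨k, rfl, rfl⟩
      · intro w _ hw
        apply ind_neg
        rintro ⟨l, h1, h2⟩
        rw [← hc h1] at h2
        exact hw h2
      · intro h
        exact absurd (mem_univ _) h
    have e2 : ∑ w, ind (four c w (c k)) = 1 := by
      rw [sum_eq_single (c (k - 1))]
      · exact ind_pos ⟨k - 1, rfl, by rw [sub_add_cancel]⟩
      · intro w _ hw
        apply ind_neg
        rintro ⟨l, h1, h2⟩
        have h3 := hc h2
        apply hw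
        rw [h1, h3, add_sub_cancel_right]
      · intro h
        exact absurd (mem_univ _) h
    rw [e1, e2]
  · rw [sum_eq_zero, sum_eq_zero]
    · intro w _
      apply ind_neg
      rintro ⟨l, h1, h2⟩
      exact h ⟨_, h2⟩
    · intro w _
      apply ind_neg
      rintro ⟨l, h1, h2⟩
      exact h ⟨_, h1⟩

/-- the cubic block, prisms -/
theorem fam_prism [Fintype G] (a b : G) (ha2 : a⁻¹ = a) (hb2 : b⁻¹ ≠ b) (hab : a ≠ b)
    (hc : a * b = b * a) (ha : a ∉ Subgroup.zpowers b) (h1 : (1 : G) ∉ ({a, b, b⁻¹} : Set G))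
    (hinv : ∀ s ∈ ({a, b, b⁻¹} : Set G), s⁻¹ ∈ ({a, b, b⁻¹} : Set G)) :
    Fam (cay {a, b, b⁻¹} h1 hinv) := by
  classical
  have haa : a * a = 1 := by
    have := mul_inv_cancel a
    rwa [ha2] at this
  have a1 : a ≠ 1 := fun h => h1 (by simp [h])
  have b1 : b ≠ 1 := fun h => h1 (by simp [h])
  have hab' : a ≠ b⁻¹ := fun h => hab (by rw [← ha2, h, inv_inv])
  have hba : b * a ≠ 1 := fun h => hab' (eq_inv_of_mul_eq_one_right h)
  obtain ⟨T, hT⟩ := exists_layers a b ha2 hc ha
  let c : G → Fin 4 → G := fun i => ![i, i * b, i * b * a, i * a]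
  have c0 : ∀ i, c i 0 = i := fun i => rfl
  have c1 : ∀ i, c i 1 = i * b := fun i => rfl
  have c2 : ∀ i, c i 2 = i * b * a := fun i => rfl
  have c3 : ∀ i, c i 3 = i * a := fun i => rfl
  have hci : ∀ i, Function.Injective (c i) := by
    intro i
    have f01 : i ≠ i * b := fun h => b1 (by simpa using h)
    have f02 : i ≠ i * b * a := fun h => hba (by rw [mul_assoc] at h; simpa using h)
    have f03 : i ≠ i * a := fun h => a1 (by simpa using h)
    have f12 : i * b ≠ i * b * a := fun h => a1 (by simpa using h)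
    have f13 : i * b ≠ i * a := fun h => hab (mul_left_cancel h).symm
    have f23 : i * b * a ≠ i * a := fun h => b1 (by
      have := mul_right_cancel h
      simpa using this)
    intro k l hkl
    fin_cases k <;> fin_cases l <;> first
      | rfl
      | exact absurd hkl f01
      | exact absurd hkl f02
      | exact absurd hkl f03
      | exact absurd hkl f12
      | exact absurd hkl f13
      | exact absurd hkl f23
      | exact absurd hkl.symm f01
      | exact absurd hkl.symm f02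
      | exact absurd hkl.symm f03
      | exact absurd hkl.symm f12
      | exact absurd hkl.symm f13
      | exact absurd hkl.symm f23
  -- the four kinds of arcs of a quadrangle
  have four_iff : ∀ i u v, four (c i) u v ↔ (u = i ∧ v = u * b) ∨ (u = i * b ∧ v = u * a) ∨
      (u = i * b * a ∧ v = u * b⁻¹) ∨ (u = i * a ∧ v = u * a) := by
    intro i u v
    constructor
    · rintro ⟨k, hu, hv⟩
      fin_cases k
      · left
        exact ⟨hu, by rw [hv, hu]; rfl⟩
      · right; left
        exact ⟨hu, by rw [hv, hu]; rfl⟩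
      · right; right; left
        refine ⟨hu, ?_⟩
        rw [hv, hu]
        show i * a = i * b * a * b⁻¹
        rw [mul_assoc i b a, ← hc]
        group
      · right; right; right
        refine ⟨hu, ?_⟩
        rw [hv, hu]
        show i = i * a * a
        rw [mul_assoc, haa, mul_one]
    · rintro (⟨rfl, rfl⟩ | ⟨rfl, rfl⟩ | ⟨rfl, rfl⟩ | ⟨rfl, rfl⟩)
      · exact ⟨0, rfl, rfl⟩
      · exact ⟨1, rfl, rfl⟩
      · refine ⟨2, rfl, ?_⟩
        show i * b * a * b⁻¹ = i * a
        rw [mul_assoc i b a, ← hc]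
        group
      · refine ⟨3, rfl, ?_⟩
        show i * a * a = i
        rw [mul_assoc, haa, mul_one]
  refine ⟨Option G, inferInstance, fun o u v => o.elim ((u ∈ T ∧ v = u * b⁻¹) ∨
    (u ∉ T ∧ v = u * b)) (fun i => i ∈ T ∧ four (c i) u v), ?_, ?_, ?_, ?_⟩
  · rintro (_ | i) u v hi
    · rcases hi with ⟨-, hi⟩ | ⟨-, hi⟩
      · show u⁻¹ * v ∈ _
        rw [hi]
        simp
      · show u⁻¹ * v ∈ _
        rw [hi]
        simp
    · show u⁻¹ * v ∈ _
      rcases (four_iff i u v).1 hi.2 with ⟨-, hi⟩ | ⟨-, hi⟩ | ⟨-, hi⟩ | ⟨-, hi⟩ <;>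
        · rw [hi]
          simp
  · rintro (_ | i) u v hi hj
    · rcases hi with ⟨hi, hi'⟩ | ⟨hi, hi'⟩ <;> rcases hj with ⟨hj, hj'⟩ | ⟨hj, hj'⟩
      · rw [hi', mul_assoc] at hj'
        have h3 : b⁻¹ * b⁻¹ = 1 := by simpa using hj'
        exact hb2 (by rw [inv_eq_iff_mul_eq_one, ← inv_inj, mul_inv_rev, inv_one]; exact h3)
      · apply hj
        rw [← (hT v).1, hi', inv_mul_cancel_right]
        exact hi
      · apply hi
        rw [← (hT u).1, ← hi']
        exact hj
      · rw [hi', mul_assoc] at hj'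
        have h3 : b * b = 1 := by simpa using hj'
        exact hb2 (inv_eq_of_mul_eq_one_left h3)
    · exact four_no (hci i) hi.2 hj.2
  · rintro (_ | i) v
    · show ∑ w, ind ((v ∈ T ∧ w = v * b⁻¹) ∨ (v ∉ T ∧ w = v * b)) =
        ∑ w, ind ((w ∈ T ∧ v = w * b⁻¹) ∨ (w ∉ T ∧ v = w * b))
      have e1 : ∀ w, ind ((v ∈ T ∧ w = v * b⁻¹) ∨ (v ∉ T ∧ w = v * b)) =
          ind (v ∈ T ∧ w = v * b⁻¹) + ind (v ∉ T ∧ w = v * b) := fun w =>
        ind_or (fun h => h.2.1 h.1.1)
      have e2 : ∀ w, ind ((w ∈ T ∧ v = w * b⁻¹) ∨ (w ∉ T ∧ v = w * b)) =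
          ind (v ∈ T ∧ w = v * b) + ind (v ∉ T ∧ w = v * b⁻¹) := by
        intro w
        rw [ind_or (fun h => h.2.1 h.1.1)]
        congr 1
        · apply ind_congr
          constructor
          · rintro ⟨x, rfl⟩
            refine ⟨?_, by group⟩
            rwa [← (hT _).1, inv_mul_cancel_right]
          · rintro ⟨x, rfl⟩
            exact ⟨(hT v).1.2 x, by group⟩
        · apply ind_congr
          constructor
          · rintro ⟨x, rfl⟩
            exact ⟨fun h => x ((hT w).1.1 h), by group⟩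
          · rintro ⟨x, rfl⟩
            refine ⟨fun h => x ?_, by group⟩
            rw [← (hT _).1, inv_mul_cancel_right] at h
            exact h
      rw [sum_congr rfl (fun w _ => e1 w), sum_congr rfl (fun w _ => e2 w), sum_add_distrib,
        sum_add_distrib, sum_ind_eq, sum_ind_eq, sum_ind_eq, sum_ind_eq]
    · show ∑ w, ind (i ∈ T ∧ four (c i) v w) = ∑ w, ind (i ∈ T ∧ four (c i) w v)
      by_cases hi : i ∈ T
      · simp only [hi, true_and]
        exact four_bal (hci i) v
      · simp only [hi, false_and]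
  · intro u v huv
    have huv : u⁻¹ * v = a ∨ u⁻¹ * v = b ∨ u⁻¹ * v = b⁻¹ := huv
    have n1 : ∀ u : G, u * a ≠ u * b := fun u h => hab (mul_left_cancel h)
    have n2 : ∀ u : G, u * a ≠ u * b⁻¹ := fun u h => hab' (mul_left_cancel h)
    have n3 : ∀ u : G, u * b⁻¹ ≠ u * b := fun u h => hb2 (mul_left_cancel h)
    have tb : ∀ x, x * b⁻¹ ∈ T ↔ x ∈ T := by
      intro x
      rw [← (hT (x * b⁻¹)).1, inv_mul_cancel_right]
    rcases huv with h | h | h
    · have hv : v = u * a := by rw [← h]; group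
      subst hv
      by_cases hu : u ∈ T
      · refine ⟨some (u * b⁻¹), ⟨(tb u).2 hu, (four_iff _ _ _).2
          (Or.inr (Or.inl ⟨by group, rfl⟩))⟩, ?_⟩
        rintro (_ | j) hj
        · rcases hj with ⟨-, hj⟩ | ⟨-, hj⟩
          · exact absurd hj (n2 u)
          · exact absurd hj (n1 u)
        · rcases (four_iff _ _ _).1 hj.2 with ⟨-, hj'⟩ | ⟨hj', -⟩ | ⟨-, hj'⟩ | ⟨hj', -⟩
          · exact absurd hj' (n1 u)
          · rw [hj', mul_inv_cancel_right]
          · exact absurd hj' (n2 u)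
          · rw [hj'] at hu
            exact absurd hj.1 ((hT j).2.1 hu)
      · refine ⟨some (u * a), ⟨(hT u).2.2 hu, (four_iff _ _ _).2
          (Or.inr (Or.inr (Or.inr ⟨by rw [mul_assoc, haa, mul_one], rfl⟩)))⟩, ?_⟩
        rintro (_ | j) hj
        · rcases hj with ⟨-, hj⟩ | ⟨-, hj⟩
          · exact absurd hj (n2 u)
          · exact absurd hj (n1 u)
        · rcases (four_iff _ _ _).1 hj.2 with ⟨-, hj'⟩ | ⟨hj', -⟩ | ⟨-, hj'⟩ | ⟨hj', -⟩
          · exact absurd hj' (n1 u)
          · rw [hj'] at hu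
            exact absurd ((hT j).1.2 hj.1) hu
          · exact absurd hj' (n2 u)
          · rw [hj', mul_assoc, haa, mul_one]
    · have hv : v = u * b := by rw [← h]; group
      subst hv
      by_cases hu : u ∈ T
      · refine ⟨some u, ⟨hu, (four_iff _ _ _).2 (Or.inl ⟨rfl, rfl⟩)⟩, ?_⟩
        rintro (_ | j) hj
        · rcases hj with ⟨-, hj⟩ | ⟨hj, -⟩
          · exact absurd hj.symm (n3 u)
          · exact absurd hu hj
        · rcases (four_iff _ _ _).1 hj.2 with ⟨hj', -⟩ | ⟨-, hj'⟩ | ⟨-, hj'⟩ | ⟨-, hj'⟩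
          · rw [hj']
          · exact absurd hj'.symm (n1 u)
          · exact absurd hj'.symm (n3 u)
          · exact absurd hj'.symm (n1 u)
      · refine ⟨none, Or.inr ⟨hu, rfl⟩, ?_⟩
        rintro (_ | j) hj
        · rfl
        · rcases (four_iff _ _ _).1 hj.2 with ⟨hj', -⟩ | ⟨-, hj'⟩ | ⟨-, hj'⟩ | ⟨-, hj'⟩
          · rw [hj'] at hu
            exact absurd hj.1 hu
          · exact absurd hj'.symm (n1 u)
          · exact absurd hj'.symm (n3 u)
          · exact absurd hj'.symm (n1 u)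
    · have hv : v = u * b⁻¹ := by rw [← h]; group
      subst hv
      by_cases hu : u ∈ T
      · refine ⟨none, Or.inl ⟨hu, rfl⟩, ?_⟩
        rintro (_ | j) hj
        · rfl
        · rcases (four_iff _ _ _).1 hj.2 with ⟨-, hj'⟩ | ⟨-, hj'⟩ | ⟨hj', -⟩ | ⟨-, hj'⟩
          · exact absurd hj' (n3 u)
          · exact absurd hj'.symm (n2 u)
          · rw [hj'] at hu
            exact absurd ((hT j).1.2 hj.1) ((hT (j * b)).2.1 hu)
          · exact absurd hj'.symm (n2 u)
      · refine ⟨some (u * a * b⁻¹), ⟨(tb _).2 ((hT u).2.2 hu), (four_iff _ _ _).2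
          (Or.inr (Or.inr (Or.inl ⟨?_, rfl⟩)))⟩, ?_⟩
        · rw [inv_mul_cancel_right, mul_assoc, haa, mul_one]
        rintro (_ | j) hj
        · rcases hj with ⟨hj, -⟩ | ⟨-, hj⟩
          · exact absurd hj hu
          · exact absurd hj (n3 u)
        · rcases (four_iff _ _ _).1 hj.2 with ⟨-, hj'⟩ | ⟨-, hj'⟩ | ⟨hj', -⟩ | ⟨-, hj'⟩
          · exact absurd hj' (n3 u)
          · exact absurd hj'.symm (n2 u)
          · rw [hj', mul_assoc (j * b) a a, haa, mul_one, mul_inv_cancel_right]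
          · exact absurd hj'.symm (n2 u)

/-- the block with an element of even order -/
theorem fam_alt [Fintype G] (S : Set G) (h1 : (1 : G) ∉ S) (hinv : ∀ s ∈ S, s⁻¹ ∈ S)
    (hodd : Odd S.ncard) (a b : G) (ha : a ∈ S) (hb : b ∈ S) (ha2 : a⁻¹ = a) (hb2 : b⁻¹ ≠ b)
    (he : Even (orderOf b)) : Fam (cay S h1 hinv) := by
  classical
  have haa : a * a = 1 := by
    have := mul_inv_cancel a
    rwa [ha2] at this
  have hab : a ≠ b := fun h => hb2 (by rw [← h]; exact ha2)
  have hab' : a ≠ b⁻¹ := fun h => hab (by rw [← ha2, h, inv_inv])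
  obtain ⟨T, hT⟩ := exists_alt b he
  refine fam_of_cover (fun u v => u⁻¹ * v ∈ S \ {a})
    (fun u v => (True ∧ v = u * a) ∨ ((u ∈ T ∧ v = u * b) ∨ (v ∈ T ∧ v = u * b⁻¹))) ?_ ?_ ?_ ?_ ?_ ?_ ?_
  · rintro u v ⟨h, h'⟩
    refine ⟨?_, ?_⟩
    · have := hinv _ h
      rwa [mul_inv_rev, inv_inv] at this
    · intro h3
      apply h'
      rw [Set.mem_singleton_iff] at h3 ⊢
      have := congrArg (fun x => x⁻¹) h3
      simp only [mul_inv_rev, inv_inv, ha2] at this
      exact this
  · rintro u v (⟨-, h⟩ | ⟨h, h'⟩ | ⟨h, h'⟩)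
    · exact Or.inl ⟨trivial, by rw [h, mul_assoc, haa, mul_one]⟩
    · exact Or.inr (Or.inr ⟨h, by rw [h', mul_inv_cancel_right]⟩)
    · exact Or.inr (Or.inl ⟨h, by rw [h', inv_mul_cancel_right]⟩)
  · exact fun u v h => h.1
  · rintro u v (⟨-, h⟩ | ⟨h, h'⟩ | ⟨h, h'⟩)
    · show u⁻¹ * v ∈ S
      rw [h]
      simpa using ha
    · show u⁻¹ * v ∈ S
      rw [h']
      simpa using hb
    · show u⁻¹ * v ∈ S
      rw [h']
      simpa using hinv b hb
  · intro v
    rw [sum_ind_card, Set.ncard_sdiff_singleton_of_mem ha]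
    exact Nat.Odd.sub_odd hodd odd_one
  · intro v
    have e1 : ∀ w, ind ((True ∧ w = v * a) ∨ ((v ∈ T ∧ w = v * b) ∨ (w ∈ T ∧ w = v * b⁻¹))) =
        ind (True ∧ w = v * a) + (ind (v ∈ T ∧ w = v * b) + ind (v ∉ T ∧ w = v * b⁻¹)) := by
      intro w
      rw [ind_or, ind_or]
      · congr 2
        apply ind_congr
        have h3 := hT (v * b⁻¹)
        rw [inv_mul_cancel_right] at h3
        constructor
        · rintro ⟨x, rfl⟩
          exact ⟨fun h => h3.1 h x, rfl⟩
        · rintro ⟨x, rfl⟩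
          exact ⟨not_not.1 (fun h => x (h3.2 h)), rfl⟩
      · rintro ⟨⟨-, x⟩, ⟨-, y⟩⟩
        exact hb2 (mul_left_cancel (y.symm.trans x))
      · rintro ⟨⟨-, x⟩, ⟨-, y⟩ | ⟨-, y⟩⟩
        · exact hab (mul_left_cancel (x.symm.trans y))
        · exact hab' (mul_left_cancel (x.symm.trans y))
    rw [sum_congr rfl (fun w _ => e1 w), sum_add_distrib, sum_add_distrib, sum_ind_eq, sum_ind_eq,
      sum_ind_eq]
    by_cases h : v ∈ T
    · rw [ind_pos trivial, ind_pos h, ind_neg (not_not.2 h)]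
      exact ⟨1, rfl⟩
    · rw [ind_pos trivial, ind_neg h, ind_pos h]
      exact ⟨1, rfl⟩
  · intro u v huv
    by_cases h : u⁻¹ * v = a
    · right
      exact Or.inl ⟨trivial, by rw [← h]; group⟩
    · left
      exact ⟨huv, h⟩

/-- an odd symmetric set contains an element of order two -/
theorem exists_inv [Fintype G] (S : Set G) (hinv : ∀ s ∈ S, s⁻¹ ∈ S) (hodd : Odd S.ncard) :
    ∃ a ∈ S, a⁻¹ = a := by
  classical
  by_contra hcon
  push Not at hcon
  have h1 : ∑ _s ∈ S.toFinset, (1 : ZMod 2) = 0 := by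
    refine Finset.sum_involution (fun s _ => s⁻¹) ?_ ?_ ?_ ?_
    · intro s _
      decide
    · intro s hs _
      exact hcon s (Set.mem_toFinset.1 hs)
    · intro s hs
      exact Set.mem_toFinset.2 (hinv s (Set.mem_toFinset.1 hs))
    · intro s _
      exact inv_inv s
  rw [sum_const, nsmul_eq_mul, mul_one, ← Set.ncard_eq_toFinset_card'] at h1
  rw [ZMod.natCast_eq_zero_iff_even] at h1
  exact (Nat.not_even_iff_odd.2 hodd) h1

/-- **Cayley graphs.** -/
theorem fam_cay [Fintype G] (S : Set G) (h1 : (1 : G) ∉ S) (hinv : ∀ s ∈ S, s⁻¹ ∈ S)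
    (h2 : 2 ≤ S.ncard) : Fam (cay S h1 hinv) := by
  classical
  rcases Nat.even_or_odd S.ncard with he | hodd
  · exact fam_even (fun v => by
      show Even (∑ w, ind (v⁻¹ * w ∈ S))
      rw [sum_ind_card]
      exact he)
  obtain ⟨a, ha, ha2⟩ := exists_inv S hinv hodd
  obtain ⟨b, hb, hba⟩ : ∃ b ∈ S, b ≠ a := by
    by_contra hcon
    push Not at hcon
    have : S ⊆ {a} := fun x hx => hcon x hx
    have := Set.ncard_le_ncard this
    rw [Set.ncard_singleton] at this
    omega
  by_cases hb2 : b⁻¹ = b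
  · exact fam_two_inv S h1 hinv hodd a b ha hb hba.symm ha2 hb2
  by_cases hbe : Even (orderOf b)
  · exact fam_alt S h1 hinv hodd a b ha hb ha2 hb2 hbe
  have haa : a * a = 1 := by
    have := mul_inv_cancel a
    rwa [ha2] at this
  have a1 : a ≠ 1 := fun h => h1 (h ▸ ha)
  have b1 : b ≠ 1 := fun h => h1 (h ▸ hb)
  have hab : a ≠ b := hba.symm
  have hab' : a ≠ b⁻¹ := fun h => hab (by rw [← ha2, h, inv_inv])
  have hazb : a ∉ Subgroup.zpowers b := by
    intro h
    apply hbe
    have h3 : orderOf a ∣ orderOf b := orderOf_dvd_of_mem_zpowers h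
    have h4 : orderOf a = 2 := orderOf_eq_prime (by rw [pow_two, haa]) a1
    rw [h4] at h3
    exact even_iff_two_dvd.2 h3
  have hsub : ({a, b, b⁻¹} : Set G) ⊆ S := by
    rintro x (rfl | rfl | rfl)
    · exact ha
    · exact hb
    · exact hinv _ hb
  have k1 : (1 : G) ∉ ({a, b, b⁻¹} : Set G) := fun h => h1 (hsub h)
  have k2 : ∀ s ∈ ({a, b, b⁻¹} : Set G), s⁻¹ ∈ ({a, b, b⁻¹} : Set G) := by
    rintro s (rfl | rfl | rfl)
    · left; exact ha2
    · right; right; rfl
    · right; left; exact inv_inv _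
  have block : Fam (cay {a, b, b⁻¹} k1 k2) := by
    by_cases hr : a ∈ Subgroup.zpowers (b * a)
    · refine fam_prism a b ha2 hb2 hab ?_ hazb k1 k2
      obtain ⟨k, hk⟩ := hr
      have hk : (b * a) ^ k = a := hk
      have h3 : Commute a (b * a) := by
        have h4 : Commute ((b * a) ^ k) (b * a) := (Commute.refl _).zpow_left k
        rwa [hk] at h4
      have h5 : a * (b * a) = b * a * a := h3
      have h6 : a * b * a = b * a * a := by rw [← h5, mul_assoc]
      exact mul_right_cancel h6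
    · exact fam_rot a b ha2 hb2 hab hr k1 k2
  have m1 : (1 : G) ∉ S \ {a, b, b⁻¹} := fun h => h1 h.1
  have m2 : ∀ s ∈ S \ ({a, b, b⁻¹} : Set G), s⁻¹ ∈ S \ ({a, b, b⁻¹} : Set G) := by
    rintro s ⟨hs, hs'⟩
    refine ⟨hinv s hs, fun h => hs' ?_⟩
    have := k2 _ h
    rwa [inv_inv] at this
  have rest : Fam (cay (S \ {a, b, b⁻¹}) m1 m2) := by
    apply fam_even
    intro v
    show Even (∑ w, ind (v⁻¹ * w ∈ S \ {a, b, b⁻¹}))
    rw [sum_ind_card, Set.ncard_sdiff hsub]
    have h3 : ({a, b, b⁻¹} : Set G).ncard = 3 := by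
      rw [Set.ncard_eq_three]
      exact ⟨a, b, b⁻¹, hab, hab', fun h => hb2 h.symm, rfl⟩
    rw [h3]
    exact Nat.Odd.sub_odd hodd (by decide)
  refine Fam.union block rest ?_ ?_
  · intro u v
    show u⁻¹ * v ∈ S ↔ u⁻¹ * v ∈ ({a, b, b⁻¹} : Set G) ∨ u⁻¹ * v ∈ S \ {a, b, b⁻¹}
    constructor
    · intro h
      by_cases h3 : u⁻¹ * v ∈ ({a, b, b⁻¹} : Set G)
      · exact Or.inl h3
      · exact Or.inr ⟨h, h3⟩
    · rintro (h | h)
      · exact hsub h
      · exact h.1
  · intro u v h h'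
    exact h'.2 h

end Pool.Agent.K4H13.CY
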