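import Mathlib
import Pool.Agent.K4H13.CY.Cay

/-!
Oriented cycle double covers of graphs with groups of automorphisms that act freely on the arcs.
-/

set_option autoImplicit false

namespace Pool.Agent.K4H13.CY

open Finset Pool.Agent.TH505.OCDC

variable {V : Type}

/-- the arcs of a graph -/
abbrev Arc (S : SimpleGraph V) : Type := {a : V × V // S.Adj a.1 a.2}

/-- the opposite arc -/
def rev {S : SimpleGraph V} (a : Arc S) : Arc S := ⟨(a.1.2, a.1.1), a.2.symm⟩

theorem rev_rev {S : SimpleGraph V} (a : Arc S) : rev (rev a) = a := rfl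

theorem sum_ind_equiv {α β : Type} [Fintype α] [Fintype β] (P : α → Prop) (Q : β → Prop)
    (e : {a // P a} ≃ {b // Q b}) : ∑ a, ind (P a) = ∑ b, ind (Q b) := by
  classical
  have h : ∀ {γ : Type} [Fintype γ] (R : γ → Prop), ∑ a, ind (R a) = Fintype.card {a // R a} := by
    intro γ _ R
    rw [Fintype.card_subtype, card_filter]
    exact sum_congr rfl (fun a _ => by by_cases hR : R a <;> simp [ind, hR])
  rw [h, h]
  exact Fintype.card_congr e

theorem sum_ind_out [Fintype V] {S : SimpleGraph V} [Fintype (Arc S)] (Q : Arc S → Prop) (v : V) :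
    ∑ w, ind (∃ h : S.Adj v w, Q ⟨(v, w), h⟩) = ∑ a : Arc S, ind (a.1.1 = v ∧ Q a) := by
  refine sum_ind_equiv _ _
    { toFun := fun w => ⟨⟨(v, w.1), w.2.choose⟩, rfl, w.2.choose_spec⟩
      invFun := fun a => ⟨a.1.1.2, ?_⟩
      left_inv := fun w => rfl
      right_inv := fun a => ?_ }
  · obtain ⟨⟨⟨x, y⟩, h⟩, h1, h2⟩ := a
    subst h1
    exact ⟨h, h2⟩
  · obtain ⟨⟨⟨x, y⟩, h⟩, h1, h2⟩ := a
    subst h1
    rfl

theorem sum_ind_in [Fintype V] {S : SimpleGraph V} [Fintype (Arc S)] (Q : Arc S → Prop) (v : V) :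
    ∑ w, ind (∃ h : S.Adj w v, Q ⟨(w, v), h⟩) = ∑ a : Arc S, ind (a.1.2 = v ∧ Q a) := by
  refine sum_ind_equiv _ _
    { toFun := fun w => ⟨⟨(w.1, v), w.2.choose⟩, rfl, w.2.choose_spec⟩
      invFun := fun a => ⟨a.1.1.1, ?_⟩
      left_inv := fun w => rfl
      right_inv := fun a => ?_ }
  · obtain ⟨⟨⟨x, y⟩, h⟩, h1, h2⟩ := a
    subst h1
    exact ⟨h, h2⟩
  · obtain ⟨⟨⟨x, y⟩, h⟩, h1, h2⟩ := a
    subst h1
    rfl

/-- a permutation of the arcs (facial walks) in which no cycle contains two opposite arcs -/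
theorem fam_of_perm [Fintype V] (S : SimpleGraph V) (φ : Equiv.Perm (Arc S))
    (h1 : ∀ a, (φ a).1.1 = a.1.2) (h2 : ∀ a, ¬ φ.SameCycle a (rev a)) : Fam S := by
  classical
  have : Fintype (Arc S) := Fintype.ofFinite _
  let s : Setoid (Arc S) := Equiv.Perm.SameCycle.setoid φ
  have : Fintype (Quotient s) := Fintype.ofFinite _
  refine ⟨Quotient s, inferInstance, fun i u v => ∃ h : S.Adj u v,
    (Quotient.mk s ⟨(u, v), h⟩) = i, ?_, ?_, ?_, ?_⟩
  · rintro i u v ⟨h, -⟩
    exact h
  · rintro i u v ⟨h, hi⟩ ⟨h', hi'⟩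
    exact h2 ⟨(u, v), h⟩ (Quotient.exact (hi.trans hi'.symm))
  · intro i v
    rw [sum_ind_out (fun a => Quotient.mk s a = i) v, sum_ind_in (fun a => Quotient.mk s a = i) v]
    rw [← Equiv.sum_comp φ (fun a => ind (a.1.1 = v ∧ Quotient.mk s a = i))]
    refine sum_congr rfl (fun a _ => ?_)
    apply ind_congr
    rw [h1 a]
    have h3 : Quotient.mk s (φ a) = Quotient.mk s a :=
      Quotient.sound (Equiv.Perm.SameCycle.symm ⟨1, by simp⟩)
    rw [h3]
  · intro u v huv
    exact ⟨_, ⟨huv, rfl⟩, fun j hj => by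
      obtain ⟨h, hj⟩ := hj
      exact hj.symm⟩

theorem grp_even {Γ : Type} [Group Γ] (x y t : Γ) (m : ℕ) (ht : t = (y * x) ^ m)
    (h1 : y = t * x * t⁻¹) (h2 : t * t = 1) : x = y := by
  have h3 : t⁻¹ = t := inv_eq_of_mul_eq_one_left h2
  have h4 : t * x = y * t := by
    rw [h1, mul_assoc (t * x), inv_mul_cancel, mul_one]
  have h5 : t * y = x * t := by
    calc t * y = t * (t * x * t⁻¹) := by rw [← h1]
      _ = (t * t) * x * t⁻¹ := by group
      _ = x * t := by rw [h2, one_mul, h3]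
  have hc : Commute t (y * x) := by
    rw [ht]
    exact (Commute.refl _).pow_left m
  have h6 : y * x = x * y := by
    have h8 : t * (y * x) = (x * y) * t := by
      rw [← mul_assoc, h5, mul_assoc, h4, mul_assoc]
    rw [hc.eq] at h8
    exact mul_right_cancel h8
  have h7 : Commute t x := by
    rw [ht]
    apply Commute.pow_left
    exact Commute.mul_left (show Commute y x from h6) (Commute.refl x)
  have h9 := h7.eq
  rw [h4] at h9
  exact (mul_right_cancel h9).symm

theorem grp_odd {Γ : Type} [Group Γ] (x y : Γ) (m : ℕ) (h : (y * x) ^ m * y = 1) :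
    x ^ m = y⁻¹ ^ (m + 1) := by
  have e2 : (y * x) ^ m = y⁻¹ := eq_inv_of_mul_eq_one_left h
  have hc : Commute ((y * x) ^ m) (y * x) := (Commute.refl _).pow_left m
  rw [e2] at hc
  have e3 : Commute y x := by
    have h3 : Commute y (y * x) := by
      have := hc.inv_left
      rwa [inv_inv] at this
    have h4 : y * (y * x) = y * x * y := h3
    rw [mul_assoc y x y] at h4
    exact mul_left_cancel h4
  rw [e3.mul_pow] at e2
  have e5 : x ^ m = (y ^ m)⁻¹ * y⁻¹ := eq_inv_mul_of_mul_eq e2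
  rw [e5, pow_succ, inv_pow]

section action

variable {Γ : Type} [Group Γ] [MulAction Γ V] {S : SimpleGraph V}

/-- the action on the arcs -/
def act (hadj : ∀ (g : Γ) (u v : V), S.Adj u v → S.Adj (g • u) (g • v)) (g : Γ) (a : Arc S) :
    Arc S := ⟨(g • a.1.1, g • a.1.2), hadj g _ _ a.2⟩

/-- rotations of order `p` around all the vertices -/
theorem fam_rotations [Fintype V]
    (hadj : ∀ (g : Γ) (u v : V), S.Adj u v → S.Adj (g • u) (g • v))
    (hfree : ∀ (g : Γ) (u v : V), S.Adj u v → g • u = u → g • v = v → g = 1)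
    (p : ℕ) (hp : p.Prime) (hrot : ∀ u v : V, S.Adj u v → ∃ g : Γ, g • u = u ∧ orderOf g = p) :
    Fam S := by
  classical
  let A : Γ → Arc S → Arc S := act hadj
  have A_mul : ∀ g h a, A (g * h) a = A g (A h a) := by
    intro g h a
    apply Subtype.ext
    show ((g * h) • a.1.1, (g * h) • a.1.2) = (g • h • a.1.1, g • h • a.1.2)
    rw [mul_smul, mul_smul]
  have A_one : ∀ a, A 1 a = a := by
    intro a
    apply Subtype.ext
    show ((1 : Γ) • a.1.1, (1 : Γ) • a.1.2) = _
    rw [one_smul, one_smul]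
  have A_rev : ∀ g a, A g (rev a) = rev (A g a) := fun g a => rfl
  have A_inj : ∀ g h a, A g a = A h a → g = h := by
    intro g h a hgh
    have h1 : g • a.1.1 = h • a.1.1 := congrArg (fun x : Arc S => x.1.1) hgh
    have h2 : g • a.1.2 = h • a.1.2 := congrArg (fun x : Arc S => x.1.2) hgh
    have h3 : h⁻¹ * g = 1 := by
      refine hfree _ _ _ a.2 ?_ ?_
      · rw [mul_smul, h1, inv_smul_smul]
      · rw [mul_smul, h2, inv_smul_smul]
    rw [inv_mul_eq_one] at h3
    exact h3.symm
  -- representatives of the orbits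
  let s : Setoid (Arc S) :=
    { r := fun a b => ∃ g : Γ, A g a = b
      iseqv := ⟨fun a => ⟨1, A_one a⟩, fun {a b} ⟨g, hg⟩ => ⟨g⁻¹, by
        rw [← hg, ← A_mul, inv_mul_cancel, A_one]⟩, fun {a b c} ⟨g, hg⟩ ⟨h, hh⟩ => ⟨h * g, by
        rw [A_mul, hg, hh]⟩⟩ }
  have hrep : ∀ a : Arc S, ∃ g : Γ, A g (Quotient.mk s a).out = a := fun a =>
    Quotient.exact (Quotient.out_eq (Quotient.mk s a))
  choose g hg using hrep
  choose x hx1 hx2 using fun a : Arc S => hrot a.1.1 a.1.2 a.2
  let ρ : Arc S → Γ := fun a => g a * x (Quotient.mk s a).out * (g a)⁻¹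
  have ρ_eq : ∀ h a, ρ (A h a) = h * ρ a * h⁻¹ := by
    intro h a
    have e : Quotient.mk s (A h a) = Quotient.mk s a :=
      Quotient.sound (s.symm ⟨h, rfl⟩)
    have e2 : g (A h a) = h * g a := by
      apply A_inj _ _ (Quotient.mk s a).out
      rw [A_mul, hg a]
      have := hg (A h a)
      rwa [e] at this
    show g (A h a) * x (Quotient.mk s (A h a)).out * (g (A h a))⁻¹ = _
    rw [e, e2]
    show _ = h * (g a * x (Quotient.mk s a).out * (g a)⁻¹) * h⁻¹
    group
  have ρ_fix : ∀ a, ρ a • a.1.1 = a.1.1 := by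
    intro a
    have h1 : g a • (Quotient.mk s a).out.1.1 = a.1.1 := congrArg (fun z : Arc S => z.1.1) (hg a)
    show (g a * x (Quotient.mk s a).out * (g a)⁻¹) • a.1.1 = a.1.1
    rw [mul_smul, mul_smul]
    nth_rewrite 1 [← h1]
    rw [inv_smul_smul, hx1, h1]
  have ρ_ord : ∀ a, orderOf (ρ a) = p := by
    intro a
    show orderOf (g a * x (Quotient.mk s a).out * (g a)⁻¹) = p
    have h1 : g a * x (Quotient.mk s a).out * (g a)⁻¹ =
        MulAut.conj (g a) (x (Quotient.mk s a).out) := by simp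
    rw [h1, MulEquiv.orderOf_eq, hx2]
  -- the permutation
  let R : Arc S → Arc S := fun a => A (ρ a) a
  have hRinj : Function.Injective R := by
    have hl : Function.LeftInverse (fun a => A (ρ a)⁻¹ a) R := by
      intro a
      show A (ρ (A (ρ a) a))⁻¹ (A (ρ a) a) = a
      rw [ρ_eq, mul_inv_cancel_right, ← A_mul, inv_mul_cancel, A_one]
    exact hl.injective
  have hrinj : Function.Injective (rev : Arc S → Arc S) := fun a b h => by
    have := congrArg rev h
    exact this
  let φ : Equiv.Perm (Arc S) := Equiv.ofBijective (fun a => R (rev a))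
    (Finite.injective_iff_bijective.1 (hRinj.comp hrinj))
  have hφ : ∀ a, φ a = A (ρ (rev a)) (rev a) := fun a => rfl
  have φ_act : ∀ h a, φ (A h a) = A h (φ a) := by
    intro h a
    rw [hφ, hφ, ← A_rev, ρ_eq, ← A_mul, ← A_mul, inv_mul_cancel_right]
  have φ2 : ∀ a, φ (φ a) = A (ρ (rev a) * ρ a) a := by
    intro a
    rw [hφ a, φ_act, hφ (rev a), rev_rev, ← A_mul]
  have φ_pow : ∀ m a, (φ ^ (2 * m)) a = A ((ρ (rev a) * ρ a) ^ m) a := by
    intro m a
    induction m with
    | zero => simp [A_one]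
    | succ m ih =>
      rw [show 2 * (m + 1) = 2 * m + 1 + 1 by ring, pow_succ, pow_succ, Equiv.Perm.mul_apply,
        Equiv.Perm.mul_apply, φ2]
      have hcomm : ∀ k h b, (φ ^ k) (A h b) = A h ((φ ^ k) b) := by
        intro k h
        induction k with
        | zero => intro b; rfl
        | succ k ihk =>
          intro b
          rw [pow_succ, Equiv.Perm.mul_apply, Equiv.Perm.mul_apply, φ_act, ihk]
      rw [hcomm, ih, ← A_mul, ← pow_succ']
  refine fam_of_perm S φ ?_ ?_
  · intro a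
    rw [hφ]
    exact ρ_fix (rev a)
  · intro a hsc
    obtain ⟨k, hk⟩ : ∃ k : ℕ, (φ ^ k) a = rev a := by
      obtain ⟨k, -, -, hk⟩ := hsc.exists_pow_eq''
      exact ⟨k, hk⟩
    have free : ∀ z : Γ, z • a.1.1 = a.1.1 → z • a.1.2 = a.1.2 → z = 1 := fun z => hfree z _ _ a.2
    have fixy : ρ (rev a) • a.1.2 = a.1.2 := ρ_fix (rev a)
    have fixx := ρ_fix a
    have ordx := ρ_ord a
    have ordy := ρ_ord (rev a)
    have p1 : p ≠ 1 := hp.ne_one
    rcases Nat.even_or_odd' k with ⟨m, rfl | rfl⟩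
    · -- an even power
      rw [φ_pow] at hk
      have e1 : ρ (rev a) = (ρ (rev a) * ρ a) ^ m * ρ a * ((ρ (rev a) * ρ a) ^ m)⁻¹ := by
        have := ρ_eq ((ρ (rev a) * ρ a) ^ m) a
        rwa [hk] at this
      have e2 : A ((ρ (rev a) * ρ a) ^ m * (ρ (rev a) * ρ a) ^ m) a = a := by
        rw [A_mul, hk, A_rev, hk, rev_rev]
      have e3 : (ρ (rev a) * ρ a) ^ m * (ρ (rev a) * ρ a) ^ m = 1 :=
        A_inj _ _ a (by rw [e2, A_one])
      have e4 := grp_even (ρ a) (ρ (rev a)) _ m rfl e1 e3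
      have e5 := free (ρ a) fixx (by rw [e4]; exact fixy)
      rw [e5, orderOf_one] at ordx
      exact p1 ordx.symm
    · -- an odd power
      rw [pow_succ', Equiv.Perm.mul_apply, φ_pow, φ_act, hφ, ← A_mul] at hk
      have e1 : (ρ (rev a) * ρ a) ^ m * ρ (rev a) = 1 :=
        A_inj _ _ (rev a) (by rw [hk, A_one])
      have e4 := grp_odd (ρ a) (ρ (rev a)) m e1
      have h5 : ρ a ^ m = 1 := by
        refine free _ ?_ ?_
        · have : ∀ n : ℕ, ρ a ^ n • a.1.1 = a.1.1 := by
            intro n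
            induction n with
            | zero => rw [pow_zero, one_smul]
            | succ n ih => rw [pow_succ, mul_smul, fixx, ih]
          exact this m
        · rw [e4]
          have h6 : (ρ (rev a))⁻¹ • a.1.2 = a.1.2 := by
            rw [inv_smul_eq_iff]
            exact fixy.symm
          have : ∀ n : ℕ, (ρ (rev a))⁻¹ ^ n • a.1.2 = a.1.2 := by
            intro n
            induction n with
            | zero => rw [pow_zero, one_smul]
            | succ n ih => rw [pow_succ, mul_smul, h6, ih]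
          exact this (m + 1)
      have h7 : ρ (rev a) ^ (m + 1) = 1 := by
        have := e4.symm.trans h5
        rwa [inv_pow, inv_eq_one] at this
      have h8 := orderOf_dvd_of_pow_eq_one h5
      have h9 := orderOf_dvd_of_pow_eq_one h7
      rw [ordx] at h8
      rw [ordy] at h9
      exact hp.one_lt.not_ge (Nat.le_of_dvd one_pos ((Nat.dvd_add_right h8).1 h9))

end action

end Pool.Agent.K4H13.CY
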