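import Mathlib
import Pool.Agent.K4H13.CY.Act

/-!
Oriented cycle double covers of vertex-transitive graphs with trivial arc stabilisers, and of
generalised Petersen graphs over groups.
-/

set_option autoImplicit false

namespace Pool.Agent.K4H13.CY

open Finset Pool.Agent.TH505.OCDC

variable {V : Type}

theorem Fam.map {W : Type} [Fintype V] [Fintype W] {S : SimpleGraph V} {T : SimpleGraph W}
    (e : V ≃ W) (he : ∀ u v, S.Adj u v ↔ T.Adj (e u) (e v)) (f : Fam S) : Fam T := by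
  obtain ⟨ι, _, A, a1, a2, a3, a4⟩ := f
  have he' : ∀ u v, T.Adj u v ↔ S.Adj (e.symm u) (e.symm v) := by
    intro u v
    rw [he, e.apply_symm_apply, e.apply_symm_apply]
  refine ⟨ι, inferInstance, fun i u v => A i (e.symm u) (e.symm v), ?_, ?_, ?_, ?_⟩
  · intro i u v h
    exact (he' u v).2 (a1 i _ _ h)
  · intro i u v h
    exact a2 i _ _ h
  · intro i v
    rw [Equiv.sum_comp e.symm (fun w => ind (A i (e.symm v) w)),
      Equiv.sum_comp e.symm (fun w => ind (A i w (e.symm v)))]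
    exact a3 i _
  · intro u v huv
    exact a4 _ _ ((he' u v).1 huv)

/-- a group that is transitive on the vertices and acts freely on the arcs -/
theorem fam_transitive {Γ : Type} [Group Γ] [MulAction Γ V] [Fintype V] {S : SimpleGraph V}
    (hadj : ∀ (g : Γ) (u v : V), S.Adj u v → S.Adj (g • u) (g • v))
    (htrans : ∀ u v : V, ∃ g : Γ, g • u = v)
    (hfree : ∀ (g : Γ) (u v : V), S.Adj u v → g • u = u → g • v = v → g = 1)
    (v₀ : V) (hval : 2 ≤ {w | S.Adj v₀ w}.ncard) : Fam S := by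
  classical
  obtain ⟨w₀, hw₀⟩ : ∃ w, S.Adj v₀ w := by
    by_contra hcon
    push Not at hcon
    have : {w | S.Adj v₀ w} = ∅ := by
      ext w
      simp [hcon w]
    rw [this, Set.ncard_empty] at hval
    omega
  have hinj : Function.Injective (fun g : Γ => (g • v₀, g • w₀)) := by
    intro g h hgh
    have h1 : g • v₀ = h • v₀ := congrArg Prod.fst hgh
    have h2 : g • w₀ = h • w₀ := congrArg Prod.snd hgh
    have h3 : h⁻¹ * g = 1 := by
      refine hfree _ _ _ hw₀ ?_ ?_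
      · rw [mul_smul, h1, inv_smul_smul]
      · rw [mul_smul, h2, inv_smul_smul]
    rw [inv_mul_eq_one] at h3
    exact h3.symm
  have hfin : Finite Γ := Finite.of_injective _ hinj
  have : Fintype Γ := Fintype.ofFinite Γ
  have hadj' : ∀ (g : Γ) (u v : V), S.Adj (g • u) (g • v) → S.Adj u v := by
    intro g u v h
    have := hadj g⁻¹ _ _ h
    rwa [inv_smul_smul, inv_smul_smul] at this
  by_cases hst : ∀ g : Γ, g • v₀ = v₀ → g = 1
  · -- a Cayley graph
    have hbij : Function.Bijective (fun g : Γ => g • v₀) := by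
      refine ⟨?_, fun v => htrans v₀ v⟩
      intro g h hgh
      have h1 : g • v₀ = h • v₀ := hgh
      have h3 : h⁻¹ * g = 1 := hst _ (by rw [mul_smul, h1, inv_smul_smul])
      rw [inv_mul_eq_one] at h3
      exact h3.symm
    let e : Γ ≃ V := Equiv.ofBijective _ hbij
    have he : ∀ g, e g = g • v₀ := fun g => rfl
    let T : Set Γ := {g | S.Adj v₀ (g • v₀)}
    have hT1 : (1 : Γ) ∉ T := by
      intro h
      have : S.Adj v₀ ((1 : Γ) • v₀) := h
      rw [one_smul] at this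
      exact S.irrefl this
    have hTinv : ∀ g ∈ T, g⁻¹ ∈ T := by
      intro g hg
      have h1 : S.Adj v₀ (g • v₀) := hg
      show S.Adj v₀ (g⁻¹ • v₀)
      apply hadj' g
      rw [smul_inv_smul]
      exact h1.symm
    have hcard : T.ncard = {w | S.Adj v₀ w}.ncard := by
      have : {w | S.Adj v₀ w} = e '' T := by
        ext w
        constructor
        · intro hw
          refine ⟨e.symm w, ?_, e.apply_symm_apply w⟩
          show S.Adj v₀ (e.symm w • v₀)
          rw [← he, e.apply_symm_apply]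
          exact hw
        · rintro ⟨g, hg, rfl⟩
          exact hg
      rw [this, Set.ncard_image_of_injective _ e.injective]
    refine Fam.map e ?_ (fam_cay T hT1 hTinv (by rw [hcard]; exact hval))
    intro x y
    show x⁻¹ * y ∈ T ↔ S.Adj (x • v₀) (y • v₀)
    constructor
    · intro h
      have h1 : S.Adj v₀ ((x⁻¹ * y) • v₀) := h
      have := hadj x _ _ h1
      rwa [← mul_smul, mul_inv_cancel_left] at this
    · intro h
      show S.Adj v₀ ((x⁻¹ * y) • v₀)
      have := hadj x⁻¹ _ _ h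
      rwa [inv_smul_smul, ← mul_smul] at this
  · push Not at hst
    obtain ⟨g, hg, hg1⟩ := hst
    have hord : orderOf g ≠ 1 := fun h => hg1 (orderOf_eq_one_iff.1 h)
    have hord0 : orderOf g ≠ 0 := (orderOf_pos g).ne'
    let p := (orderOf g).minFac
    have hp : p.Prime := Nat.minFac_prime hord
    have hx : orderOf (g ^ (orderOf g / p)) = p :=
      orderOf_pow_orderOf_div hord0 (Nat.minFac_dvd _)
    have hfix : ∀ n : ℕ, g ^ n • v₀ = v₀ := by
      intro n
      induction n with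
      | zero => rw [pow_zero, one_smul]
      | succ n ih => rw [pow_succ, mul_smul, hg, ih]
    refine fam_rotations hadj hfree p hp ?_
    intro u v _
    obtain ⟨h, hh⟩ := htrans v₀ u
    refine ⟨h * g ^ (orderOf g / p) * h⁻¹, ?_, ?_⟩
    · rw [← hh, mul_smul, inv_smul_smul, mul_smul, hfix]
    · have h1 : h * g ^ (orderOf g / p) * h⁻¹ = MulAut.conj h (g ^ (orderOf g / p)) := by simp
      rw [h1, MulEquiv.orderOf_eq, hx]

/-- the generalised Petersen graph of two elements of a group: `(x,0) ~ (xr,0)`,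
`(x,1) ~ (xl,1)` and `(x,0) ~ (x,1)` -/
def petersen {H : Type} [Group H] (r l : H) (hr : r ≠ 1) (hl : l ≠ 1) : SimpleGraph (H × Bool) where
  Adj u v := (u.2 = false ∧ v.2 = false ∧ (v.1 = u.1 * r ∨ u.1 = v.1 * r)) ∨
    (u.2 = true ∧ v.2 = true ∧ (v.1 = u.1 * l ∨ u.1 = v.1 * l)) ∨
    (u.2 ≠ v.2 ∧ u.1 = v.1)
  symm := ⟨by
    rintro u v (⟨h1, h2, h3 | h3⟩ | ⟨h1, h2, h3 | h3⟩ | ⟨h1, h2⟩)
    · exact Or.inl ⟨h2, h1, Or.inr h3⟩
    · exact Or.inl ⟨h2, h1, Or.inl h3⟩
    · exact Or.inr (Or.inl ⟨h2, h1, Or.inr h3⟩)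
    · exact Or.inr (Or.inl ⟨h2, h1, Or.inl h3⟩)
    · exact Or.inr (Or.inr ⟨h1.symm, h2.symm⟩)⟩
  loopless := ⟨by
    rintro u (⟨_, _, h3 | h3⟩ | ⟨_, _, h3 | h3⟩ | ⟨h1, _⟩)
    · exact hr (by simpa using h3)
    · exact hr (by simpa using h3)
    · exact hl (by simpa using h3)
    · exact hl (by simpa using h3)
    · exact h1 rfl⟩

theorem sum_bool {H : Type} [Fintype H] (P : H × Bool → Prop) :
    ∑ w, ind (P w) = ∑ y, ind (P (y, false)) + ∑ y, ind (P (y, true)) := by
  rw [Fintype.sum_prod_type, ← sum_add_distrib]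
  refine sum_congr rfl (fun y _ => ?_)
  rw [Fintype.sum_bool, add_comm]

/-- the families of arcs of the generalised Petersen graph -/
def pf {H Q : Type} [Group H] (r l : H) (C : H → Q) : Option Q → H × Bool → H × Bool → Prop
  | none, (x, false), (y, false) => True ∧ y = x * r⁻¹
  | none, (x, true), (y, true) => True ∧ y = x * l⁻¹
  | none, (x, false), (y, true) => False ∧ y = x
  | none, (x, true), (y, false) => False ∧ y = x
  | some i, (x, false), (y, false) => C x = i ∧ y = x * r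
  | some i, (x, false), (y, true) => C (x * r⁻¹) = i ∧ y = x
  | some i, (x, true), (y, true) => C (x * r⁻¹) = i ∧ y = x * l
  | some i, (x, true), (y, false) => C x = i ∧ y = x

theorem fam_petersen {H : Type} [Group H] [Fintype H] (r l : H) (hr : r ≠ 1) (hl : l ≠ 1)
    (hr2 : r⁻¹ ≠ r) (hl2 : l⁻¹ ≠ l) (h : r ∉ Subgroup.zpowers (r * l)) :
    Fam (petersen r l hr hl) := by
  classical
  let C : H → H ⧸ Subgroup.zpowers (r * l) := fun x => QuotientGroup.mk x
  have hC : ∀ x y, C x = C y ↔ x⁻¹ * y ∈ Subgroup.zpowers (r * l) := fun x y => QuotientGroup.eq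
  have hC1 : ∀ x, C (x * l⁻¹ * r⁻¹) = C x := by
    intro x
    rw [hC]
    refine ⟨1, ?_⟩
    show (r * l) ^ (1 : ℤ) = _
    rw [zpow_one]
    group
  have hC2 : ∀ x, C (x * r⁻¹) ≠ C x := by
    intro x hx
    rw [hC] at hx
    apply h
    have : (x * r⁻¹)⁻¹ * x = r := by group
    rwa [this] at hx
  have e1 : ∀ (p : Prop) (x : H), ∑ y, ind (p ∧ y = x) = ind p := fun p x => sum_ind_eq p x
  have e2 : ∀ (p : H → Prop) (x a : H), ∑ y, ind (p y ∧ x = y * a) = ind (p (x * a⁻¹)) := by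
    intro p x a
    rw [← e1 (p (x * a⁻¹)) (x * a⁻¹)]
    refine sum_congr rfl (fun y _ => ind_congr ?_)
    constructor
    · rintro ⟨h1, rfl⟩
      rw [mul_inv_cancel_right]
      exact ⟨h1, rfl⟩
    · rintro ⟨h1, rfl⟩
      rw [inv_mul_cancel_right]
      exact ⟨h1, rfl⟩
  have e3 : ∀ (p : H → Prop) (x : H), ∑ y, ind (p y ∧ x = y) = ind (p x) := by
    intro p x
    rw [← e1 (p x) x]
    refine sum_congr rfl (fun y _ => ind_congr ?_)
    constructor
    · rintro ⟨h1, rfl⟩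
      exact ⟨h1, rfl⟩
    · rintro ⟨h1, rfl⟩
      exact ⟨h1, rfl⟩
  refine ⟨Option (H ⧸ Subgroup.zpowers (r * l)), inferInstance, pf r l C, ?_, ?_, ?_, ?_⟩
  · rintro (_ | i) ⟨x, (_ | _)⟩ ⟨y, (_ | _)⟩ ⟨h1, h2⟩
    · exact Or.inl ⟨rfl, rfl, Or.inr (by show x = y * r; rw [h2, inv_mul_cancel_right])⟩
    · exact h1.elim
    · exact h1.elim
    · exact Or.inr (Or.inl ⟨rfl, rfl, Or.inr (by show x = y * l; rw [h2, inv_mul_cancel_right])⟩)
    · exact Or.inl ⟨rfl, rfl, Or.inl h2⟩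
    · exact Or.inr (Or.inr ⟨by simp, h2.symm⟩)
    · exact Or.inr (Or.inr ⟨by simp, h2.symm⟩)
    · exact Or.inr (Or.inl ⟨rfl, rfl, Or.inl h2⟩)
  · have inv1 : ∀ a x y : H, a⁻¹ ≠ a → y = x * a → x = y * a → False := by
      intro a x y ha h1 h2
      apply ha
      rw [h1] at h2
      rw [mul_assoc] at h2
      have : a * a = 1 := by
        have h3 : x * 1 = x * (a * a) := by rw [mul_one]; exact h2
        exact (mul_left_cancel h3).symm
      exact inv_eq_of_mul_eq_one_left this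
    rintro (_ | i) ⟨x, (_ | _)⟩ ⟨y, (_ | _)⟩ ⟨h1, h2⟩ ⟨h3, h4⟩
    · exact inv1 _ _ _ (by simpa using fun h => hr2 h.symm) h2 h4
    · exact h1.elim
    · exact h1.elim
    · exact inv1 _ _ _ (by simpa using fun h => hl2 h.symm) h2 h4
    · exact inv1 _ _ _ hr2 h2 h4
    · subst h2
      exact hC2 _ (h1.trans h3.symm)
    · subst h2
      exact hC2 _ (h3.trans h1.symm)
    · exact inv1 _ _ _ hl2 h2 h4
  · rintro (_ | i) ⟨x, (_ | _)⟩
    · rw [sum_bool, sum_bool]
      show ∑ y, ind (True ∧ y = x * r⁻¹) + ∑ y, ind (False ∧ y = x) =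
        ∑ y, ind (True ∧ x = y * r⁻¹) + ∑ y, ind (False ∧ x = y)
      rw [e1, e1, e2 (fun _ => True), e3 (fun _ => False)]
    · rw [sum_bool, sum_bool]
      show ∑ y, ind (False ∧ y = x) + ∑ y, ind (True ∧ y = x * l⁻¹) =
        ∑ y, ind (False ∧ x = y) + ∑ y, ind (True ∧ x = y * l⁻¹)
      rw [e1, e1, e2 (fun _ => True), e3 (fun _ => False)]
    · rw [sum_bool, sum_bool]
      show ∑ y, ind (C x = i ∧ y = x * r) + ∑ y, ind (C (x * r⁻¹) = i ∧ y = x) =
        ∑ y, ind (C y = i ∧ x = y * r) + ∑ y, ind (C y = i ∧ x = y)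
      rw [e1, e1, e2 (fun y => C y = i), e3 (fun y => C y = i), add_comm]
    · rw [sum_bool, sum_bool]
      show ∑ y, ind (C x = i ∧ y = x) + ∑ y, ind (C (x * r⁻¹) = i ∧ y = x * l) =
        ∑ y, ind (C (y * r⁻¹) = i ∧ x = y) + ∑ y, ind (C (y * r⁻¹) = i ∧ x = y * l)
      rw [e1, e1, e2 (fun y => C (y * r⁻¹) = i), e3 (fun y => C (y * r⁻¹) = i), add_comm, hC1]
  · have inv2 : ∀ a x y : H, a⁻¹ ≠ a → y = x * a → y = x * a⁻¹ → False := by
      intro a x y ha h1 h2
      rw [h1] at h2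
      exact ha (mul_left_cancel h2).symm
    rintro ⟨x, (_ | _)⟩ ⟨y, (_ | _)⟩ (⟨h1, h2, h3 | h3⟩ | ⟨h1, h2, h3 | h3⟩ | ⟨h1, h2⟩)
    all_goals try (simp at h1; done)
    all_goals try (simp at h2; done)
    · have h3 : y = x * r := h3
      refine ⟨some (C x), ⟨rfl, h3⟩, ?_⟩
      rintro (_ | j) ⟨h4, h5⟩
      · exact (inv2 _ _ _ hr2 h3 h5).elim
      · rw [h4]
    · have h3 : x = y * r := h3
      refine ⟨none, ⟨trivial, by rw [h3, mul_inv_cancel_right]⟩, ?_⟩
      rintro (_ | j) ⟨h4, h5⟩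
      · rfl
      · exact (inv2 _ _ _ hr2 h5 (by rw [h3, mul_inv_cancel_right])).elim
    · have h2 : x = y := h2
      refine ⟨some (C (x * r⁻¹)), ⟨rfl, h2.symm⟩, ?_⟩
      rintro (_ | j) ⟨h4, h5⟩
      · exact h4.elim
      · rw [h4]
    · have h2 : x = y := h2
      refine ⟨some (C x), ⟨rfl, h2.symm⟩, ?_⟩
      rintro (_ | j) ⟨h4, h5⟩
      · exact h4.elim
      · rw [h4]
    · have h3 : y = x * l := h3
      refine ⟨some (C (x * r⁻¹)), ⟨rfl, h3⟩, ?_⟩
      rintro (_ | j) ⟨h4, h5⟩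
      · exact (inv2 _ _ _ hl2 h3 h5).elim
      · rw [h4]
    · have h3 : x = y * l := h3
      refine ⟨none, ⟨trivial, by rw [h3, mul_inv_cancel_right]⟩, ?_⟩
      rintro (_ | j) ⟨h4, h5⟩
      · rfl
      · exact (inv2 _ _ _ hl2 h5 (by rw [h3, mul_inv_cancel_right])).elim

/-- the elements do not commute -/
theorem fam_petersen_noncomm {H : Type} [Group H] [Fintype H] (r l : H) (hr : r ≠ 1) (hl : l ≠ 1)
    (hr2 : r⁻¹ ≠ r) (hl2 : l⁻¹ ≠ l) (h : r * l ≠ l * r) :
    Fam (petersen r l hr hl) := by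
  refine fam_petersen r l hr hl hr2 hl2 ?_
  rintro ⟨k, hk⟩
  apply h
  have hk : (r * l) ^ k = r := hk
  have h1 : Commute ((r * l) ^ k) (r * l) := (Commute.refl _).zpow_left k
  rw [hk] at h1
  have h2 : r * (r * l) = r * l * r := h1
  rw [mul_assoc r l r] at h2
  exact mul_left_cancel h2

end Pool.Agent.K4H13.CY
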